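import Pool.Agent.W601.RP.Stm2

/-!
# Compact subsets of the group
-/

set_option autoImplicit false
open scoped Classical
open Filter Topology

namespace Pool.Agent.W63.RP
open Pool.Agent.W601.RP

noncomputable section

/-- reduction of one coefficient -/
def rd (t : ℕ) (a : ℤ) : ℤ :=
  ((t + 1).factorial : ℤ) - (((t + 1).factorial : ℤ) - a) % (2 * ((t + 1).factorial : ℤ))

theorem fpos (t : ℕ) : (0 : ℤ) < ((t + 1).factorial : ℤ) := by
  exact_mod_cast Nat.factorial_pos _

theorem N_cast (t : ℕ) : (N t : ℤ) = 2 * ((t + 1).factorial : ℤ) := by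
  unfold N
  push_cast
  rfl

theorem rd_range (t : ℕ) (a : ℤ) : -(N t : ℤ) < 2 * rd t a ∧ 2 * rd t a ≤ N t := by
  have h0 := fpos t
  have h1 := Int.emod_nonneg (((t + 1).factorial : ℤ) - a)
    (by positivity : (2 * ((t + 1).factorial : ℤ)) ≠ 0)
  have h2 := Int.emod_lt_of_pos (((t + 1).factorial : ℤ) - a)
    (by positivity : (0 : ℤ) < (2 * ((t + 1).factorial : ℤ)))
  rw [N_cast]
  unfold rd
  constructor <;> linarith

theorem rd_eq (t : ℕ) (a : ℤ) (h1 : -(N t : ℤ) < 2 * a) (h2 : 2 * a ≤ N t) : rd t a = a := by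
  rw [N_cast] at h1 h2
  unfold rd
  rw [Int.emod_eq_of_lt (by linarith) (by linarith)]
  ring

theorem rd_smul (t : ℕ) (a : ℤ) (y : TT) (hy : N t • y = 0) : rd t a • y = a • y := by
  have h1 : rd t a = a + ((((t + 1).factorial : ℤ) - a) / (2 * ((t + 1).factorial : ℤ))) *
      (N t : ℤ) := by
    rw [N_cast]
    unfold rd
    have := Int.emod_add_mul_ediv (((t + 1).factorial : ℤ) - a) (2 * ((t + 1).factorial : ℤ))
    linarith
  have h2 : ((N t : ℕ) : ℤ) • y = 0 := by
    rw [natCast_zsmul]
    exact hy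
  rw [h1, add_smul, mul_smul, h2, smul_zero, add_zero]

theorem rd_zero (t : ℕ) : rd t 0 = 0 := by
  have h0 := fpos t
  apply rd_eq
  · rw [N_cast]; linarith
  · rw [N_cast]; linarith

/-- reduction of all coefficients -/
def rdF (k : ℕ →₀ ℤ) : ℕ →₀ ℤ :=
  Finsupp.onFinset k.support (fun t => rd t (k t)) (by
    intro t ht
    rw [Finsupp.mem_support_iff]
    intro h
    apply ht
    rw [h, rd_zero])

theorem rdF_apply (k : ℕ →₀ ℤ) (t : ℕ) : rdF k t = rd t (k t) := rfl

theorem rdF_red (k : ℕ →₀ ℤ) : Red (rdF k) := fun t => by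
  rw [rdF_apply]
  exact rd_range t _

theorem pr_rdF (k : ℕ →₀ ℤ) (h : ℕ → TT) (hh : ∀ t, N t • h t = 0) : pr (rdF k) h = pr k h := by
  unfold pr rdF
  rw [Finsupp.onFinset_sum _ (fun a => zero_smul ℤ (h a))]
  exact Finset.sum_congr rfl fun t _ => rd_smul t _ _ (hh t)

theorem cpt : S_SUPP → S_COEF → S_ANT → S_DICH → S_GS → S_SEQ → S_RED → S_NULL → S_CPT := by
  intro hSUPP hCOEF hANT hDICH hGS hSEQ hRED hNULL K hK
  choose kk hkR hkphi using hGS.1
  have hcount : Countable ↥GS := hGS.2.2.2.1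
  -- coordinates
  have hkey : ∀ (z g : ↥GS) (t : ℕ), t ∉ (kk g).support → kk z t = kk (z - g) t := by
    intro z g t ht
    have h1 : phi (kk z) = phi (rdF (kk g + kk (z - g))) := by
      funext h
      have e1 : phi (rdF (kk g + kk (z - g))) h = phi (kk g + kk (z - g)) h :=
        pr_rdF _ _ (hNULL.2 _ h.2)
      have e2 : phi (kk g + kk (z - g)) h = phi (kk g) h + phi (kk (z - g)) h :=
        hRED.2.1 _ _ _
      rw [e1, e2, ← hkphi, ← hkphi, ← hkphi, AddSubgroup.coe_sub, Pi.sub_apply]
      abel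
    have h2 := hGS.2.2.1 _ _ (hkR z) (rdF_red _) h1
    rw [h2, rdF_apply, Finsupp.add_apply, Finsupp.notMem_support_iff.1 ht, zero_add]
    exact rd_eq _ _ (hkR (z - g) t).1 (hkR (z - g) t).2
  -- a continuous injection into a metrizable space
  have hsep : ∀ ab : ↥GS × ↥GS, ∃ h : ↥H, ab.1 ≠ ab.2 →
      (ab.1 : ↥H → TT) h ≠ (ab.2 : ↥H → TT) h := by
    intro ab
    by_cases hab : ab.1 = ab.2
    · exact ⟨0, fun h => absurd hab h⟩
    · have : (ab.1 : ↥H → TT) ≠ (ab.2 : ↥H → TT) := fun h => hab (Subtype.ext h)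
      obtain ⟨h, hh⟩ := Function.ne_iff.1 this
      exact ⟨h, fun _ => hh⟩
  choose hs hhs using hsep
  have hfc : Continuous (fun (g : ↥GS) (ab : ↥GS × ↥GS) => (g : ↥H → TT) (hs ab)) :=
    continuous_pi fun ab => (continuous_apply (hs ab)).comp continuous_subtype_val
  have hfi : Function.Injective (fun (g : ↥GS) (ab : ↥GS × ↥GS) => (g : ↥H → TT) (hs ab)) := by
    intro g g' h
    by_contra hne
    exact hhs (g, g') hne (congrFun h (g, g'))
  have hseq : ∀ z : ℕ → ↥GS, (∀ n, z n ∈ K) →
      ∃ a ∈ K, ∃ φ : ℕ → ℕ, StrictMono φ ∧ Tendsto (fun n => z (φ n)) atTop (𝓝 a) :=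
    hSEQ ↥GS (↥GS × ↥GS → TT) _ hfc hfi K hK
  -- null sequences
  have hnull : ∀ (z : ℕ → ↥GS) (g : ↥GS), Tendsto z atTop (𝓝 g) →
      NullS (fun j => kk (z j - g)) := by
    intro z g hz h hh
    have h1 : Tendsto (fun j => (z j : ↥H → TT) ⟨h, hh⟩) atTop (𝓝 ((g : ↥H → TT) ⟨h, hh⟩)) :=
      ((continuous_apply (⟨h, hh⟩ : ↥H)).comp continuous_subtype_val).continuousAt.tendsto.comp hz
    have h2 : ∀ j, pr (kk (z j - g)) h =
        (z j : ↥H → TT) ⟨h, hh⟩ - (g : ↥H → TT) ⟨h, hh⟩ := by
      intro j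
      have := congrFun (hkphi (z j - g)) ⟨h, hh⟩
      rw [AddSubgroup.coe_sub, Pi.sub_apply] at this
      exact this.symm
    simp only [h2]
    have h3 := h1.sub_const ((g : ↥H → TT) ⟨h, hh⟩)
    rwa [sub_self] at h3
  -- part 1
  have hA : FinCh (⋃ g ∈ K, {t | t ∈ (kk g).support}) := by
    apply hDICH
    intro E hE hEinf
    by_contra hcon
    push Not at hcon
    set e := hEinf.natEmbedding with he
    have hmem : ∀ i, ∃ z ∈ K, (e i : ℕ) ∈ (kk z).support := by
      intro i
      have := hE (e i).2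
      simp only [Set.mem_iUnion] at this
      obtain ⟨g, hg, h⟩ := this
      exact ⟨g, hg, h⟩
    choose z hzK hze using hmem
    obtain ⟨g, _, φ, hφ, hlim⟩ := hseq z hzK
    have hinj : Function.Injective (fun i => (e (φ i) : ℕ)) := by
      intro i j hij
      exact hφ.injective (e.injective (Subtype.ext hij))
    have hfin : {i | (e (φ i) : ℕ) ∈ (kk g).support}.Finite :=
      Set.Finite.preimage hinj.injOn (kk g).support.finite_toSet
    obtain ⟨i0, hi0⟩ : ∃ i0, ∀ i ≥ i0, (e (φ i) : ℕ) ∉ (kk g).support := by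
      obtain ⟨m, hm⟩ := hfin.bddAbove
      refine ⟨m + 1, fun i hi h => ?_⟩
      have := hm h
      omega
    have hlim2 : Tendsto (fun n => z (φ (n + i0))) atTop (𝓝 g) :=
      hlim.comp (tendsto_add_atTop_nat i0)
    have hN := hnull _ _ hlim2
    have hR : ∀ j, Red (kk (z (φ (j + i0)) - g)) := fun j => hkR _
    have hL := hSUPP _ hR hN
    refine hANT _ hR hN hL (fun i => (e (φ (i + i0)) : ℕ)) ?_ ?_ ?_
    · intro i j hij
      have := hinj hij
      omega
    · intro i j hij
      apply hcon _ (e _).2 _ (e _).2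
      intro h
      apply hij
      have := hinj h
      omega
    · intro i
      rw [Finsupp.mem_support_iff, ← hkey _ _ _ (hi0 (i + i0) (Nat.le_add_left _ _)),
        ← Finsupp.mem_support_iff]
      exact hze _
  -- part 2
  have hB : ∃ B : ℕ, ∀ g ∈ K, (∑ t ∈ (kk g).support, |(kk g t : ℝ)|) ≤ B := by
    by_contra hcon
    push Not at hcon
    choose z hzK hzB using hcon
    obtain ⟨g, _, φ, hφ, hlim⟩ := hseq z hzK
    have hN := hnull _ _ hlim
    have hR : ∀ j, Red (kk (z (φ j) - g)) := fun j => hkR _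
    have hL := hSUPP _ hR hN
    obtain ⟨C, hC⟩ := hCOEF _ hR hN hL
    obtain ⟨L, hL⟩ := hL
    have hC0 : (0 : ℝ) ≤ (C : ℝ) := by
      have := (abs_nonneg _).trans (hC 0 0)
      exact_mod_cast this
    have hbound : ∀ j, (∑ t ∈ (kk (z (φ j))).support, |(kk (z (φ j)) t : ℝ)|) ≤
        ∑ t ∈ (kk g).support, (N t : ℝ) + L * C := by
      intro j
      set kz := kk (z (φ j)) with hkz
      set d := kk (z (φ j) - g) with hd
      have h1 : kz.support ⊆ (kk g).support ∪ d.support := by
        intro t ht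
        by_cases h : t ∈ (kk g).support
        · exact Finset.mem_union_left _ h
        · apply Finset.mem_union_right
          rw [Finsupp.mem_support_iff] at ht ⊢
          rwa [hkey _ _ _ h] at ht
      have hterm : ∀ t, |(kz t : ℝ)| ≤ (if t ∈ (kk g).support then (N t : ℝ) else 0) +
          (if t ∈ d.support then (C : ℝ) else 0) := by
        intro t
        by_cases h : t ∈ (kk g).support
        · rw [if_pos h]
          have h2 := hkR (z (φ j)) t
          rw [← hkz] at h2
          have h3 : |kz t| ≤ (N t : ℤ) := by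
            rw [abs_le]
            constructor
            · have := h2.1; have h5 := N_cast t; have h6 := fpos t; omega
            · have := h2.2; have h5 := N_cast t; have h6 := fpos t; omega
          have h4 : |(kz t : ℝ)| ≤ (N t : ℝ) := by exact_mod_cast h3
          have h5 : (0 : ℝ) ≤ (if t ∈ d.support then (C : ℝ) else 0) := by
            split_ifs
            · exact hC0
            · exact le_refl _
          linarith
        · rw [if_neg h, zero_add]
          have h2 : kz t = d t := hkey _ _ _ h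
          by_cases h3 : t ∈ d.support
          · rw [if_pos h3, h2]
            exact_mod_cast hC j t
          · rw [if_neg h3, h2, Finsupp.notMem_support_iff.1 h3]
            simp
      calc (∑ t ∈ kz.support, |(kz t : ℝ)|)
          ≤ ∑ t ∈ (kk g).support ∪ d.support, |(kz t : ℝ)| :=
            Finset.sum_le_sum_of_subset_of_nonneg h1 (fun _ _ _ => abs_nonneg _)
        _ ≤ ∑ t ∈ (kk g).support ∪ d.support, ((if t ∈ (kk g).support then (N t : ℝ) else 0) +
          (if t ∈ d.support then (C : ℝ) else 0)) := Finset.sum_le_sum fun t _ => hterm t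
        _ = ∑ t ∈ (kk g).support, (N t : ℝ) + d.support.card * C := by
            rw [Finset.sum_add_distrib, Finset.sum_ite_mem, Finset.sum_ite_mem,
              Finset.inter_eq_right.2 Finset.subset_union_left,
              Finset.inter_eq_right.2 Finset.subset_union_right, Finset.sum_const, nsmul_eq_mul]
        _ ≤ ∑ t ∈ (kk g).support, (N t : ℝ) + L * C := by
            have : ((d.support.card : ℕ) : ℝ) ≤ L := by exact_mod_cast hL j
            have := mul_le_mul_of_nonneg_right this hC0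
            linarith
    obtain ⟨n, hn⟩ := exists_nat_gt (∑ t ∈ (kk g).support, (N t : ℝ) + L * C)
    have h1 := hzB (φ n)
    have h2 := hbound n
    have h3 : (n : ℝ) ≤ (φ n : ℝ) := by exact_mod_cast hφ.id_le n
    linarith
  obtain ⟨B, hB⟩ := hB
  refine ⟨_, (B : ℝ) + 1, hA, by positivity, fun g hg => ⟨kk g, hkphi g, ?_, ?_⟩⟩
  · intro t ht
    simp only [Set.mem_iUnion]
    exact ⟨g, hg, ht⟩
  · have := hB g hg
    linarith

end

end Pool.Agent.W63.RP
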